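import Pool.Agent.XE31.C2.StmA

/-!
# Project C2 (helper43, helper31): piece EIG (helper69)
-/

set_option autoImplicit false

namespace Pool.Agent.H69B.C2

open Polynomial Pool.Agent.XE31.C2

theorem t_eig : St_eig := by
  intro R _ Ξ d hΞ hd
  subst hd
  set pb := AdjoinRoot.powerBasis' hΞ with hpb
  have hdim : pb.dim = Ξ.natDegree := rfl
  let M : R[X][X] →+* Matrix (Fin Ξ.natDegree) (Fin Ξ.natDegree) R[X] :=
    (Algebra.leftMulMatrix pb.basis).toRingHom.comp (AdjoinRoot.mk Ξ)
  have hM : ∀ f, M f = Algebra.leftMulMatrix pb.basis (AdjoinRoot.mk Ξ f) := fun f => rfl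
  refine ⟨M, ?_, ?_, ?_⟩
  · intro c
    have h1 : AdjoinRoot.mk Ξ (C c) = algebraMap R[X] (AdjoinRoot Ξ) c := rfl
    rw [hM, h1, AlgHom.commutes]
    have h2 := Algebra.algebraMap_eq_smul_one (A := Matrix (Fin pb.dim) (Fin pb.dim) R[X]) c
    exact h2
  · rw [hM, AdjoinRoot.mk_self]
    exact map_zero _
  · intro x η hev f j
    have hev' : (Ξ.map (evalRingHom x)).eval η = 0 := hev
    set ε : AdjoinRoot Ξ →+* R := AdjoinRoot.lift (evalRingHom x) η (by rw [← eval_map]; exact hev')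
      with hε
    have hεmk : ∀ f : R[X][X], ε (AdjoinRoot.mk Ξ f) = ev2 f x η := by
      intro f
      rw [hε, AdjoinRoot.lift_mk, ev2, eval_map]
    have hbasis : ∀ i : Fin Ξ.natDegree, pb.basis i = AdjoinRoot.root Ξ ^ (i : ℕ) := by
      intro i
      rw [PowerBasis.basis_eq_pow]
      rfl
    have hεroot : ε (AdjoinRoot.root Ξ) = η := by
      rw [hε, AdjoinRoot.lift_root]
    have hεalg : ∀ c : R[X], ε (algebraMap R[X] (AdjoinRoot Ξ) c) = c.eval x := by
      intro c
      rw [hε]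
      exact AdjoinRoot.lift_of _
    have h2 : AdjoinRoot.mk Ξ f * pb.basis j = ∑ i, M f i j • pb.basis i := by
      conv_lhs => rw [← pb.basis.sum_repr (AdjoinRoot.mk Ξ f * pb.basis j)]
      refine Finset.sum_congr rfl fun i _ => ?_
      rw [hM, Algebra.leftMulMatrix_eq_repr_mul]
    have h3 := congrArg ε h2
    rw [map_mul, hεmk, hbasis, map_pow, hεroot, map_sum] at h3
    rw [h3]
    refine Finset.sum_congr rfl fun i _ => ?_
    rw [Algebra.smul_def, map_mul, hεalg, hbasis, map_pow, hεroot, mul_comm]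

end Pool.Agent.H69B.C2
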