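import Pool.Agent.XE31.C2.StmA

/-!
# Project C2 (helper43, helper31): piece ROOT (helper69)
-/

set_option autoImplicit false

namespace Pool.Agent.H69B.C2

open Polynomial Pool.Agent.XE31.C2

theorem t_root : St_root := by
  intro N W _ _ _ r τ hW P n hn hlc x hx hr
  have := hW.dom
  have hu : IsUnit P.leadingCoeff := hW.unit _ hlc
  obtain ⟨u, hu⟩ := hu
  -- the monic polynomial
  set P₁ : W[X] := C (↑u⁻¹ : W) * P with hP₁
  have hP0 : P ≠ 0 := by
    rintro rfl
    simp at hlc
  have hPP : P = C P.leadingCoeff * P₁ := by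
    rw [hP₁, ← mul_assoc, ← C_mul, ← hu, Units.mul_inv, C_1, one_mul]
  have hm : P₁.Monic := by
    rw [hP₁, Monic, leadingCoeff_mul, leadingCoeff_C, ← hu, Units.inv_mul]
  have hd : P₁.natDegree = n := by
    rw [hP₁, natDegree_C_mul (Units.ne_zero _), hn]
  have hmap : (P₁.map r).Monic := hm.map r
  have hmd : (P₁.map r).natDegree = n := by rw [hm.natDegree_map, hd]
  have hroot : ∀ l, (P₁.map r).eval (x l) = 0 := by
    intro l
    rw [hP₁, Polynomial.map_mul, eval_mul, hr l, mul_zero]
  -- the reduction is the product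
  have hprod : P₁.map r = ∏ l, (X - C (x l)) := by
    have hdvd : (∏ l, (X - C (x l))) ∣ P₁.map r := by
      refine Finset.prod_dvd_of_coprime ?_ ?_
      · intro i _ j _ hij
        exact pairwise_coprime_X_sub_C hx hij
      · intro i _
        rw [dvd_iff_isRoot]
        exact hroot i
    have hmm : (∏ l, (X - C (x l))).Monic := monic_prod_of_monic _ _ fun i _ => monic_X_sub_C _
    refine eq_of_monic_of_dvd_of_natDegree_le hmm hmap hdvd ?_
    rw [hmd, natDegree_prod_of_monic _ _ fun i _ => monic_X_sub_C _]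
    simp
  have hder : ∀ l, (derivative (P₁.map r)).eval (x l) ≠ 0 := by
    intro l
    rw [hprod, derivative_prod_finset]
    simp only [derivative_sub, derivative_X, derivative_C, sub_zero, mul_one]
    rw [eval_finset_sum, Finset.sum_eq_single l]
    · rw [eval_prod, Finset.prod_ne_zero_iff]
      intro j hj
      rw [eval_sub, eval_X, eval_C, sub_ne_zero]
      intro h
      exact (Finset.ne_of_mem_erase hj) (hx h.symm)
    · intro j _ hj
      rw [eval_prod]
      refine Finset.prod_eq_zero (Finset.mem_erase.2 ⟨hj.symm, Finset.mem_univ l⟩) ?_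
      rw [eval_sub, eval_X, eval_C, sub_self]
    · intro h
      exact absurd (Finset.mem_univ l) h
  have hh : ∀ l, ∃ b : W, P₁.eval b = 0 ∧ r b = x l := fun l => hW.hensel P₁ hm (x l) (hroot l) (hder l)
  choose x' hx'0 hx'r using hh
  refine ⟨x', hx'r, ?_⟩
  conv_lhs => rw [hPP]
  congr 1
  have hx'inj : Function.Injective x' := by
    intro i j hij
    apply hx
    rw [← hx'r, ← hx'r, hij]
  have hmm : (∏ l, (X - C (x' l))).Monic := monic_prod_of_monic _ _ fun i _ => monic_X_sub_C _
  have hdvd : (∏ l, (X - C (x' l))) ∣ P₁ := by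
    have h1 : (Finset.univ.val.map x') ≤ P₁.roots := by
      rw [Multiset.le_iff_subset ((Multiset.nodup_map_iff_of_injective hx'inj).2 Finset.univ.nodup)]
      intro y hy
      obtain ⟨l, -, rfl⟩ := Multiset.mem_map.1 hy
      rw [mem_roots hm.ne_zero]
      exact hx'0 l
    have h2 := (Multiset.prod_X_sub_C_dvd_iff_le_roots hm.ne_zero (Finset.univ.val.map x')).2 h1
    rwa [Multiset.map_map] at h2
  refine eq_of_monic_of_dvd_of_natDegree_le hmm hm hdvd ?_
  rw [hd, natDegree_prod_of_monic _ _ fun i _ => monic_X_sub_C _]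
  simp

end Pool.Agent.H69B.C2
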