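import Pool.Agent.XE31.C2.StmA

/-!
# Project C2 (helper43, helper31): piece ZER (helper69)
-/

set_option autoImplicit false

namespace Pool.Agent.H69B.C2

open Polynomial Pool.Agent.XE31.C2

/-- a polynomial of degree `n` over an algebraically closed field without double zeros has `n` zeros -/
theorem split_inj {N : Type} [Field N] [IsAlgClosed N] (p : N[X]) (n : ℕ) (hn : p.natDegree = n)
    (hp : ∀ z, p.eval z = 0 → (derivative p).eval z ≠ 0) :
    ∃ x : Fin n → N, Function.Injective x ∧ ∀ l, p.eval (x l) = 0 := by
  classical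
  have hp0 : p ≠ 0 := by
    rintro rfl
    exact hp 0 (by simp) (by simp)
  have hnd : p.roots.Nodup := by
    rw [Multiset.nodup_iff_count_le_one]
    intro z
    rw [count_roots]
    by_contra h
    push Not at h
    have h1 := (one_lt_rootMultiplicity_iff_isRoot hp0).1 h
    exact hp z h1.1 h1.2
  have hcard : p.roots.toFinset.card = n := by
    rw [Multiset.toFinset_card_of_nodup hnd, ← hn]
    exact (IsAlgClosed.splits p).natDegree_eq_card_roots.symm
  refine ⟨fun l => ((p.roots.toFinset.equivFinOfCardEq hcard).symm l).1, ?_, ?_⟩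
  · intro i j hij
    exact (p.roots.toFinset.equivFinOfCardEq hcard).symm.injective (Subtype.ext hij)
  · intro l
    have h1 := ((p.roots.toFinset.equivFinOfCardEq hcard).symm l).2
    rw [Multiset.mem_toFinset, mem_roots hp0] at h1
    exact h1

/-- a common zero kills the resultant -/
theorem resultant_common {K : Type} [Field K] (f g : K[X]) (m n : ℕ) (hm : 0 < m)
    (hf : f.natDegree ≤ m) (hg : g.natDegree ≤ n) (z : K) (h1 : f.eval z = 0) (h2 : g.eval z = 0) :
    resultant f g m n = 0 := by
  obtain ⟨p, q, -, -, h⟩ := exists_mul_add_mul_eq_C_resultant f g hf hg (Or.inl hm.ne')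
  have := congrArg (eval z) h
  rw [eval_add, eval_mul, eval_mul, h1, h2, eval_C] at this
  simpa using this.symm

theorem t_zer : St_zer := by
  intro hroot N W _ _ _ _ r τ hW Ξ d g G D₁ hΞ hΞd hd hres hGd hGlc hsep hD
  have := hW.dom
  have hG1 : (G.map r).natDegree = g := by
    rw [natDegree_map_of_leadingCoeff_ne_zero _ hGlc, hGd]
  obtain ⟨x, hx, hx0⟩ := split_inj (G.map r) g hG1 hsep
  obtain ⟨a, har, hGa⟩ := hroot N W r τ hW G g hGd hGlc x hx hx0
  have ha : Function.Injective a := by
    intro i j hij
    apply hx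
    rw [← har, ← har, hij]
  -- the fibre over `a i`
  have key : ∀ i : Fin g, ∃ b : Fin d → W, Function.Injective b ∧ (∀ j, ev2 Ξ (a i) (b j) = 0) ∧
      ∏ j, ev2 (derivative Ξ) (a i) (b j) = D₁.eval (a i) := by
    intro i
    set P : W[X] := Ξ.map (evalRingHom (a i)) with hP
    have hPm : P.Monic := hΞ.map _
    have hPd : P.natDegree = d := by rw [hP, hΞ.natDegree_map, hΞd]
    have hder : (derivative Ξ).map (evalRingHom (a i)) = derivative P := by
      rw [hP, derivative_map]
    have hPres : resultant P (derivative P) d (d - 1) = D₁.eval (a i) := by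
      rw [← hder, hP, resultant_map_map, hres, coe_evalRingHom]
    have hPr : (P.map r).natDegree = d := by rw [hPm.natDegree_map, hPd]
    have hns : ∀ z, (P.map r).eval z = 0 → (derivative (P.map r)).eval z ≠ 0 := by
      intro z h1 h2
      have h3 : resultant (P.map r) (derivative (P.map r)) d (d - 1) = 0 :=
        resultant_common _ _ _ _ hd hPr.le
          ((natDegree_derivative_le _).trans (by rw [hPr])) z h1 h2
      rw [derivative_map, resultant_map_map, hPres] at h3
      apply hD (x i) (hx0 i)
      rw [← har i, eval_map, eval₂_at_apply, h3]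
    obtain ⟨y, hy, hy0⟩ := split_inj (P.map r) d hPr hns
    obtain ⟨b, hbr, hPb⟩ := hroot N W r τ hW P d hPd (by rw [hPm.leadingCoeff, map_one]; exact one_ne_zero)
      y hy hy0
    rw [hPm.leadingCoeff, C_1, one_mul] at hPb
    refine ⟨b, ?_, ?_, ?_⟩
    · intro j k hjk
      apply hy
      rw [← hbr, ← hbr, hjk]
    · intro j
      rw [ev2, ← hP, hPb, eval_prod]
      exact Finset.prod_eq_zero (Finset.mem_univ j) (by simp)
    · have h4 : ∏ j, ev2 (derivative Ξ) (a i) (b j) = ∏ j, (derivative P).eval (b j) := by
        refine Finset.prod_congr rfl fun j _ => ?_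
        rw [ev2, hder]
      rw [h4, ← hPres]
      have hPd' : (derivative P).natDegree ≤ d - 1 := (natDegree_derivative_le _).trans (by rw [hPd])
      have h5 := resultant_prod_left Finset.univ (fun j => X - C (b j)) (derivative P) (d - 1)
        (by simp) hPd'
      rw [← hPb, hPd] at h5
      rw [h5]
      refine Finset.prod_congr rfl fun j _ => ?_
      rw [natDegree_X_sub_C, resultant_X_sub_C_left _ _ _ hPd']
  choose b hb1 hb2 hb3 using key
  exact ⟨a, b, ha, hb1, hGa, hb2, Finset.prod_congr rfl fun i _ => hb3 i⟩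

end Pool.Agent.H69B.C2
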